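import Pool.Agent.Y150.Ch.Esc
import Pool.Agent.Y449.MK.Sub
import Pool.Agent.W689.Mk.Star

/-!
# Normal and commensurated subgroups of the holonomy of a closed affine manifold with parallel volume

Let `Γ \ X` be a closed affine manifold with parallel volume, complete or not, with affine holonomy
group `hol Γ` acting on the affine space `E`, and let `K` be a subgroup of finite index of `Γ`.

* A subgroup `N` of `Γ` whose holonomy is normalised by the one of `K` acts trivially on `E`, or it
  moves every s-finite measure on `E` to infinity: almost every point goes to infinity along one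
  sequence in `N`.
* A subgroup `N` commensurated by `K` acts on `E` through a finite group, up to finite index, or it
  moves every s-finite measure on `E` to infinity.
* Commuting normal subgroups of the holonomy consist of unipotent affine transformations; commuting
  commensurated subgroups consist of elements with a unipotent power.
-/

set_option autoImplicit false

open Set Filter Topology MeasureTheory
open Pool.Agent.W689.Mk

namespace Pool.Agent.Results.MP_df2bd8_gt.CommensuratedSubgroups

variable {E Γ : Type} [Group Γ] [NormedAddCommGroup E] [NormedSpace ℝ E]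
  (hol : Γ →* (E ≃ᵃ[ℝ] E))

/-- The subgroup `N` acts trivially on the affine space. -/
def ActsTrivially (N : Subgroup Γ) : Prop := ∀ a ∈ N, ∀ q : E, hol a q = q

/-- Some subgroup of finite index in `N` acts trivially on the affine space. -/
def ActsFinitely (N : Subgroup Γ) : Prop := ∃ L ≤ N, L.relIndex N ≠ 0 ∧ ActsTrivially hol L

/-- Every σ-finite (more generally s-finite) measure on the affine space is moved to infinity by a
sequence in `N`. -/
def Escapes [MeasurableSpace E] (N : Subgroup Γ) : Prop :=
  ∀ μ : Measure E, SFinite μ →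
    ∃ g : ℕ → Γ, (∀ k, g k ∈ N) ∧ ∀ᵐ p ∂μ, Tendsto (fun k => ‖hol (g k) p‖) atTop atTop

/-- The holonomy of `N` is normalised by the holonomy of `K`. -/
def Normalises (K N : Subgroup Γ) : Prop :=
  ∀ γ ∈ K, ∀ a ∈ N, ∃ b ∈ N, ∀ q : E, hol (γ * a * γ⁻¹) q = hol b q

/-- Up to powers, the conjugates by elements of `K` of the elements of `N` act as elements
of `N`. This is the case if `K` commensurates `N`. -/
def AlmostNormalises (K N : Subgroup Γ) : Prop :=
  ∀ γ ∈ K, ∀ a ∈ N, ∃ n : ℕ, n ≠ 0 ∧ ∃ b ∈ N, ∀ q : E, hol (γ * a ^ n * γ⁻¹) q = hol b q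

/-- The elements of `N` commute as affine transformations. -/
def Commuting (N : Subgroup Γ) : Prop :=
  ∀ a ∈ N, ∀ b ∈ N, ∀ q : E, hol a (hol b q) = hol b (hol a q)

/-- The affine transformation given by `a` is unipotent: with the linear part `T` and some `k`,
`(T - 1) ^ k (a q - q) = 0` for all `q`. -/
def Unipotent (a : Γ) : Prop :=
  ∃ k : ℕ, ∀ q : E, ((((hol a).linear : E →ₗ[ℝ] E) - LinearMap.id : Module.End ℝ E) ^ k)
    (hol a q - q) = 0

/-- The laws for the subgroups `N` of `Γ`, with respect to the subgroup `K` of finite index. -/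
structure Laws [MeasurableSpace E] (K N : Subgroup Γ) : Prop where
  /-- normalised subgroups are trivial or move measures to infinity -/
  normal : Normalises hol K N → ActsTrivially hol N ∨ Escapes hol N
  /-- commensurated subgroups are finite or move measures to infinity -/
  commensurated : K ≤ Subgroup.Commensurable.commensurator N → ActsFinitely hol N ∨ Escapes hol N
  /-- commuting normalised subgroups are unipotent -/
  unipotent : Commuting hol N → Normalises hol K N → ∀ a ∈ N, Unipotent hol a
  /-- commuting commensurated subgroups are unipotent up to powers -/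
  almost_unipotent : Commuting hol N → AlmostNormalises hol K N →
    ∀ a ∈ N, ∃ n : ℕ, n ≠ 0 ∧ Unipotent hol (a ^ n)

/-- **Theorem.** Let `Γ \ X` be a closed affine manifold with parallel volume and connected cover
`X`. The laws hold for all subgroups `K` of finite index of `Γ` and all subgroups `N` of `Γ`. -/
theorem result (E X Γ : Type) [NormedAddCommGroup E] [NormedSpace ℝ E] [FiniteDimensional ℝ E]
    [MeasurableSpace E] [BorelSpace E]
    [TopologicalSpace X] [T2Space X] [SecondCountableTopology X] [ConnectedSpace X]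
    [Group Γ] [MulAction Γ X] (dev : X → E) (hol : Γ →* (E ≃ᵃ[ℝ] E))
    (D : AffData X Γ E dev hol) (K N : Subgroup Γ) (hK : K.FiniteIndex) : Laws hol K N := by
  have DK := Pool.Agent.Y449.MK.restrict D K hK
  have hstar : ∀ (S : Set E) (p : E), p ∈ S → S ⊆ (⊤ : AffineSubspace ℝ E) →
      StarConvex ℝ p S → (∀ γ ∈ K, ∀ q ∈ S, hol γ q ∈ S) → S = (⊤ : AffineSubspace ℝ E) := by
    intro S p hp _ hs hinv
    rw [AffineSubspace.top_coe]
    exact star_univ DK hp hs fun γ q hq => hinv γ.1 γ.2 q hq
  have h0 : (0 : E) ∈ (⊤ : AffineSubspace ℝ E) := AffineSubspace.mem_top ℝ E 0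
  refine ⟨fun hnor => ?_, fun hcom => ?_, fun hcm hnor a ha => ?_, fun hcm hnor a ha => ?_⟩
  · by_cases h : ∃ q ∈ (⊤ : AffineSubspace ℝ E), Pool.Agent.Y150.Ch.Bdd hol N q
    · exact Or.inl fun a ha q => Pool.Agent.Y150.Ch.bdd_normal h0 (fun _ _ _ _ => trivial)
        hstar (fun _ _ _ _ => trivial) (fun γ hγ a ha => by
          obtain ⟨b, hb, hab⟩ := hnor γ hγ a ha
          exact ⟨b, hb, fun q _ => hab q⟩) h a ha q trivial
    · exact Or.inr fun μ _ => Pool.Agent.Y150.Ch.esc h0 (fun _ _ _ _ => trivial) h μ
        (by rw [AffineSubspace.top_coe, compl_univ]; exact measure_empty)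
  · by_cases h : ∃ q ∈ (⊤ : AffineSubspace ℝ E), Pool.Agent.Y150.Ch.Bdd hol N q
    · obtain ⟨L, hL, hi, ht⟩ := Pool.Agent.Y150.Ch.bdd_comm h0 (fun _ _ _ _ => trivial)
        hstar (fun _ _ _ _ => trivial) hcom h
      exact Or.inl ⟨L, hL, hi, fun a ha q => ht a ha q trivial⟩
    · exact Or.inr fun μ _ => Pool.Agent.Y150.Ch.esc h0 (fun _ _ _ _ => trivial) h μ
        (by rw [AffineSubspace.top_coe, compl_univ]; exact measure_empty)
  · obtain ⟨n, hn, k, h⟩ := Pool.Agent.Y150.Ch.unip h0 (fun _ _ _ _ => trivial)
      hstar (fun _ _ _ _ => trivial) (fun a ha b hb q _ => hcm a ha b hb q) ⊥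
      (fun γ hγ a ha => by
        obtain ⟨b, hb, hab⟩ := hnor γ hγ a ha
        exact ⟨1, Submonoid.one_mem _, b, hb, fun q _ => by rw [pow_one]; exact hab q⟩) a ha
    rw [Submonoid.mem_bot.1 hn, pow_one] at h
    exact ⟨k, fun q => h q trivial⟩
  · obtain ⟨n, hn, k, h⟩ := Pool.Agent.Y150.Ch.unip h0 (fun _ _ _ _ => trivial)
      hstar (fun _ _ _ _ => trivial) (fun a ha b hb q _ => hcm a ha b hb q)
      Pool.Agent.Y150.Ch.Pos
      (fun γ hγ a ha => by
        obtain ⟨n, hn, b, hb, hab⟩ := hnor γ hγ a ha
        exact ⟨n, hn, b, hb, fun q _ => hab q⟩) a ha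
    exact ⟨n, hn, k, fun q => h q trivial⟩

end Pool.Agent.Results.MP_df2bd8_gt.CommensuratedSubgroups
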