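import Pool.Agent.TH845.Mk.Cov
import Pool.Agent.W689.Mk.Conv2

/-!
# Dynamics of the affine holonomy of a closed affine manifold with parallel volume

Let `Γ \ X` be a closed affine manifold of dimension `n ≥ 1` with parallel volume, complete or not.
We study its holonomy group as a group of affine transformations of the affine space `E`.

1. Every σ-finite (more generally s-finite) measure on `E` is moved to infinity by one sequence of
   holonomy transformations: almost every point goes to infinity along the sequence.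
2. If `C` is a convex set that is not all of `E` then every bounded subset of `E` is covered by
   `n + 1` holonomy images of the complement of `C`.
3. Hence every measure `μ` on `E` has an image that gives the complement of `C` at least the
   fraction `1 / (n + 1)` of its mass, and every nonzero measure that is invariant under the
   holonomy is infinite on the complement of every proper convex set.
-/

set_option autoImplicit false

open Set Filter Topology MeasureTheory Metric
open scoped ENNReal
open Pool.Agent.W689.Mk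

namespace Pool.Agent.Results.MP_df2bd8_gt.HolonomyDynamics

variable {E Γ : Type} [Group Γ] [NormedAddCommGroup E] [NormedSpace ℝ E]

/-- A sequence in the holonomy group moves `μ`-almost every point to infinity. -/
def Escapes [MeasurableSpace E] (hol : Γ →* (E ≃ᵃ[ℝ] E)) (μ : Measure E) : Prop :=
  ∃ g : ℕ → Γ, ∀ᵐ p ∂μ, Tendsto (fun k => ‖hol (g k) p‖) atTop atTop

/-- Properties of a large subset `P` of the affine space of dimension `n`. -/
structure Large [MeasurableSpace E] (hol : Γ →* (E ≃ᵃ[ℝ] E)) (n : ℕ) (P : Set E) : Prop where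
  /-- every bounded set is covered by `n + 1` images of `P` -/
  cover : ∀ B : Set E, Bornology.IsBounded B → ∃ s : Finset Γ, s.card ≤ n + 1 ∧
    B ⊆ ⋃ γ ∈ s, hol γ ⁻¹' P
  /-- every measure is concentrated on some image of `P` up to a factor `n + 1` -/
  mass : ∀ μ : Measure E, μ univ ≤ ((n + 1 : ℕ) : ℝ≥0∞) * ⨆ γ : Γ, μ (hol γ ⁻¹' P)
  /-- every nonzero invariant measure is infinite on `P` -/
  inf : ∀ μ : Measure E, μ ≠ 0 →
    (∀ (γ : Γ) (A : Set E), MeasurableSet A → μ (hol γ ⁻¹' A) = μ A) → μ P = ∞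

theorem Large.mono [MeasurableSpace E] {hol : Γ →* (E ≃ᵃ[ℝ] E)} {n : ℕ} {P Q : Set E}
    (h : Large hol n P) (hPQ : P ⊆ Q) : Large hol n Q where
  cover B hB := by
    obtain ⟨s, hs, hc⟩ := h.cover B hB
    exact ⟨s, hs, hc.trans (iUnion₂_mono fun γ _ => preimage_mono hPQ)⟩
  mass μ := (h.mass μ).trans (by gcongr)
  inf μ h0 hi := by
    have := h.inf μ h0 hi
    exact top_le_iff.1 (this ▸ measure_mono hPQ)

theorem half_large [FiniteDimensional ℝ E] [MeasurableSpace E] [BorelSpace E]
    {hol : Γ →* (E ≃ᵃ[ℝ] E)}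
    (hirr : ∀ C : Set E, Convex ℝ C → C.Nonempty →
      (∀ γ : Γ, ∀ p ∈ C, hol γ p ∈ C) → C = univ) {φ : E →L[ℝ] ℝ} (hφ : φ ≠ 0) (a : ℝ) :
    Large hol (Module.finrank ℝ E) {p | a ≤ φ p} := by
  have hcov : ∀ (a : ℝ) (B : Set E), Bornology.IsBounded B →
      ∃ s : Finset Γ, s.card ≤ Module.finrank ℝ E + 1 ∧
      ∀ q ∈ (⊤ : AffineSubspace ℝ E), q ∈ B → ∃ γ ∈ s, a ≤ φ (hol γ q) := by
    intro a B hB
    obtain ⟨R, hR⟩ := hB.subset_closedBall 0
    obtain ⟨s, hs, h⟩ := Pool.Agent.TH845.Mk.half_cover hol hirr hφ a R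
    exact ⟨s, hs, fun q _ hq => h q (hR hq)⟩
  have hmeas := fun (μ : Measure E) (a : ℝ) =>
    Pool.Agent.TH845.Mk.measure_of_cover (hcov a) μ
  refine ⟨fun B hB => ?_, fun μ => ?_, fun μ hμ hμi => ?_⟩
  · obtain ⟨s, hs, h⟩ := hcov a B hB
    refine ⟨s, hs, fun q hq => ?_⟩
    obtain ⟨γ, hγ, h1⟩ := h q trivial hq
    exact mem_iUnion₂.2 ⟨γ, hγ, h1⟩
  · have := hmeas μ a
    rw [AffineSubspace.top_coe] at this
    refine this.trans ?_
    gcongr with γ
    rintro p ⟨_, hp'⟩
    exact hp'
  · have h1 := Pool.Agent.TH845.Mk.inv_top (H := (⊤ : AffineSubspace ℝ E))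
      (fun _ _ _ => trivial) (hmeas μ) hμi (by
        rw [AffineSubspace.top_coe]
        simpa using hμ) a
    refine top_le_iff.1 (h1 ▸ measure_mono ?_)
    rintro p ⟨_, hp'⟩
    exact hp'

/-- a proper convex set is contained in a half-space -/
theorem exists_bound [FiniteDimensional ℝ E] [Nontrivial E] {C : Set E} (hC : Convex ℝ C) {p : E}
    (hp : p ∉ C) : ∃ (φ : E →L[ℝ] ℝ) (b : ℝ), φ ≠ 0 ∧ ∀ q ∈ C, φ q ≤ b := by
  rcases C.eq_empty_or_nonempty with h0 | ⟨q₀, hq₀⟩
  · obtain ⟨v, hv⟩ := exists_ne (0 : E)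
    obtain ⟨φ, -, hφ⟩ := exists_dual_vector ℝ v (norm_ne_zero_iff.2 hv)
    refine ⟨φ, 0, ?_, fun q hq => by simp [h0] at hq⟩
    rintro rfl
    exact hv (norm_eq_zero.1 (by simpa using hφ.symm))
  by_cases hne : (interior C).Nonempty
  · obtain ⟨φ, hφ⟩ := geometric_hahn_banach_open_point hC.interior isOpen_interior
      (fun h => hp (interior_subset h))
    refine ⟨φ, φ p, ?_, ?_⟩
    · rintro rfl
      obtain ⟨a, ha⟩ := hne
      simpa using hφ a ha
    · intro q hq
      have h1 : q ∈ closure (interior C) := by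
        rw [hC.closure_interior_eq_closure_of_nonempty_interior hne]
        exact subset_closure hq
      have h2 : closure (interior C) ⊆ {q | φ q ≤ φ p} :=
        closure_minimal (fun a ha => (hφ a ha).le) (isClosed_le φ.continuous continuous_const)
      exact h2 h1
  · obtain ⟨φ, hφ, h1⟩ := support hC hq₀ (fun h => hne ⟨q₀, h⟩)
    exact ⟨φ, φ q₀, hφ, h1⟩

/-- **Theorem.** Let `Γ \ X` be a closed affine manifold of positive dimension with parallel volume,
with `X` connected. Then every s-finite measure on the affine space is moved to infinity by a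
sequence in the holonomy group, and the complement of every proper convex set is large. -/
theorem result (E X Γ : Type) [NormedAddCommGroup E] [NormedSpace ℝ E] [FiniteDimensional ℝ E]
    [Nontrivial E] [MeasurableSpace E] [BorelSpace E]
    [TopologicalSpace X] [T2Space X] [SecondCountableTopology X] [ConnectedSpace X]
    [Group Γ] [MulAction Γ X] (dev : X → E) (hol : Γ →* (E ≃ᵃ[ℝ] E))
    (D : AffData X Γ E dev hol) :
    (∀ μ : Measure E, SFinite μ → Escapes hol μ) ∧
    ∀ C : Set E, Convex ℝ C → C ≠ univ → Large hol (Module.finrank ℝ E) Cᶜ := by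
  have hirr : ∀ C : Set E, Convex ℝ C → C.Nonempty →
      (∀ γ : Γ, ∀ p ∈ C, hol γ p ∈ C) → C = univ := fun C hC hne hinv =>
    convex_univ' D hC hne hinv
  refine ⟨fun μ hμ => Pool.Agent.TH845.Mk.escape hol (fun K hK1 hK2 hK3 hK4 => ?_) μ, ?_⟩
  · have h1 := hirr K hK3 hK1 hK4
    rw [h1] at hK2
    exact noncompact_univ E hK2
  · intro C hC hne
    obtain ⟨p, hp⟩ : ∃ p, p ∉ C := by
      by_contra h
      push Not at h
      exact hne (eq_univ_of_forall h)
    obtain ⟨φ, b, hφ, h1⟩ := exists_bound hC hp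
    refine (half_large hirr hφ (b + 1)).mono fun q hq hqC => ?_
    have h2 : b + 1 ≤ φ q := hq
    linarith [h1 q hqC]

end Pool.Agent.Results.MP_df2bd8_gt.HolonomyDynamics
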