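import Pool.Agent.X169.Vis.Basic
import Pool.Agent.Y449.MK.Sub

/-!
# What one point of a closed affine manifold with parallel volume sees

Let `Γ \ X` be a closed affine manifold with parallel volume and connected cover `X`. A point `x` of
`X` sees the point `y` if a geodesic segment joins `x` to `y`. We prove for each single point `x`
that the following are equivalent: the structure is complete; `x` sees every point; the set of the
points seen by `x` is closed; the set of the velocities at `x` of the geodesics that are defined up
to time one is convex; the developed set of the points seen by `x`, a star-shaped set, has only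
finitely many images under the holonomy group.
-/

set_option autoImplicit false

open Set Topology
open Pool.Agent.W689.Mk

namespace Pool.Agent.Results.MP_df2bd8_gt.OnePointVisibility

variable {X E : Type} [TopologicalSpace X] [NormedAddCommGroup E] [NormedSpace ℝ E]

/-- The points seen by `x`: the points `y` such that some path from `x` to `y` is developed to the
affine segment from `dev x` to `dev y` with its affine parameter. -/
def Seen (dev : X → E) (x : X) : Set X :=
  {y | ∃ c : ℝ → X, ContinuousOn c (Icc 0 1) ∧ c 0 = x ∧ c 1 = y ∧
    ∀ t ∈ Icc (0 : ℝ) 1, dev (c t) = dev x + t • (dev y - dev x)}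

theorem seen_eq [T2Space X] {dev : X → E} (hloc : IsLocalHomeomorph dev) (x : X) :
    Seen dev x = X169.Vis.Vis dev x := by
  ext y
  constructor
  · intro h
    exact ⟨dev y - dev x, (X169.Vis.Ex_iff hloc).2 h⟩
  · rintro ⟨v, hv⟩
    have h1 := hv.dev_eq
    have h2 : dev y - dev x = v := by rw [h1, add_sub_cancel_left]
    show ∃ c : ℝ → X, _
    rw [h2]
    exact (X169.Vis.Ex_iff hloc).1 hv

theorem geod_iff [T2Space X] {dev : X → E} (hloc : IsLocalHomeomorph dev) (x : X) :
    {v : E | Geod dev x v} = X169.Vis.Dom dev x := by
  ext v
  exact ⟨fun h => Geod.ex hloc h, fun ⟨_, h⟩ => h.geod⟩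

/-- **Theorem.** Let `Γ \ X` be a closed affine manifold with parallel volume, with connected cover
`X`, developing map `dev` and holonomy `hol`, and let `x` be one point of `X`. The following are
equivalent.
(1) The structure is complete: the developing map is a homeomorphism onto the affine space.
(2) The point `x` sees every point of `X`.
(3) The set of the points seen by `x` is closed.
(4) The set of the initial velocities of the geodesics from `x` that are defined up to time one is
convex.
(5) The developed set of the points seen by `x` has only finitely many images under the holonomy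
group. -/
theorem result (E X Γ : Type) [NormedAddCommGroup E] [NormedSpace ℝ E] [FiniteDimensional ℝ E]
    [TopologicalSpace X] [T2Space X] [SecondCountableTopology X] [ConnectedSpace X]
    [Group Γ] [MulAction Γ X] (dev : X → E) (hol : Γ →* (E ≃ᵃ[ℝ] E))
    (D : AffData X Γ E dev hol) (x : X) :
    List.TFAE [IsHomeomorph dev,
      Seen dev x = univ,
      IsClosed (Seen dev x),
      Convex ℝ {v : E | Geod dev x v},
      (range fun γ : Γ => hol γ '' (dev '' Seen dev x)).Finite] := by
  rw [seen_eq D.loc x, geod_iff D.loc x]
  tfae_have 1 → 4 := by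
    intro h
    rw [X169.Vis.dom_univ h x]
    exact convex_univ
  tfae_have 4 → 3 := X169.Vis.isClosed_vis_of_convex D.loc
  tfae_have 3 → 2 := X169.Vis.vis_univ D.loc
  tfae_have 2 → 1 := by
    intro h
    refine visible_complete D (x := x) fun y => ?_
    have : y ∈ X169.Vis.Vis dev x := by rw [h]; trivial
    exact this
  tfae_have 1 → 5 := by
    intro h
    rw [X169.Vis.vis_of_homeo h x, image_univ, h.surjective.range_eq]
    refine (finite_singleton (univ : Set E)).subset ?_
    rintro _ ⟨γ, rfl⟩
    show hol γ '' univ = univ
    rw [image_univ, (hol γ).surjective.range_eq]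
  tfae_have 5 → 1 := by
    intro hfin
    have hS : ∀ γ δ : Γ, hol (γ * δ) '' (dev '' X169.Vis.Vis dev x) =
        hol γ '' (hol δ '' (dev '' X169.Vis.Vis dev x)) := by
      intro γ δ
      rw [← image_comp (hol γ) (hol δ), map_mul]
      rfl
    have hS1 : ∀ T : Set E, hol (1 : Γ) '' T = T := by
      intro T
      rw [map_one]
      exact image_id T
    let K : Subgroup Γ :=
      { carrier := {γ | hol γ '' (dev '' X169.Vis.Vis dev x) = dev '' X169.Vis.Vis dev x}
        one_mem' := hS1 _
        mul_mem' := by
          intro a b (ha : _ = _) (hb : _ = _)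
          show _ = _
          rw [hS, hb, ha]
        inv_mem' := by
          intro a (ha : _ = _)
          show _ = _
          nth_rewrite 1 [← ha]
          rw [← hS, inv_mul_cancel, hS1] }
    have hKm : ∀ γ, γ ∈ K ↔ hol γ '' (dev '' X169.Vis.Vis dev x) = dev '' X169.Vis.Vis dev x :=
      fun γ => Iff.rfl
    have : Finite (range fun γ : Γ => hol γ '' (dev '' X169.Vis.Vis dev x)) := hfin
    have hq : Finite (Γ ⧸ K) := by
      let f : Γ ⧸ K → (range fun γ : Γ => hol γ '' (dev '' X169.Vis.Vis dev x)) := fun q =>
        ⟨_, q.out, rfl⟩
      refine Finite.of_injective f fun a b hab => ?_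
      have h1 : hol a.out '' (dev '' X169.Vis.Vis dev x) =
          hol b.out '' (dev '' X169.Vis.Vis dev x) := congrArg Subtype.val hab
      have h2 : a.out⁻¹ * b.out ∈ K := by
        rw [hKm, hS, ← h1, ← hS, inv_mul_cancel, hS1]
      have h3 := QuotientGroup.eq.2 h2
      rwa [QuotientGroup.out_eq', QuotientGroup.out_eq'] at h3
    have hK : K.FiniteIndex := Subgroup.finiteIndex_of_finite_quotient
    have DK := Pool.Agent.Y449.MK.restrict D K hK
    have hstar := star_univ DK (C := dev '' X169.Vis.Vis dev x) (p := dev x)
      ⟨x, X169.Vis.mem_vis D.loc x, rfl⟩ (X169.Vis.star_dom x) (by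
        intro γ q hq
        have h1 := (hKm γ.1).1 γ.2
        rw [← h1]
        exact ⟨q, hq, rfl⟩)
    refine homeo_of_all D.loc (x := x) fun v => ?_
    have h1 : dev x + v ∈ dev '' X169.Vis.Vis dev x := by rw [hstar]; trivial
    obtain ⟨y, ⟨w, hw⟩, hy⟩ := h1
    have h2 := hw.dev_eq
    rw [hy] at h2
    have h3 : v = w := add_left_cancel h2
    rw [h3]
    exact ⟨y, hw⟩
  tfae_finish

end Pool.Agent.Results.MP_df2bd8_gt.OnePointVisibility
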